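import Pool.Agent.Helper69.QG.St2

/-!
# Project QD, part C, geometric half, module SHH: the shear is a homeomorphism
-/

open Complex Set Metric
open scoped ComplexConjugate

namespace Pool.Agent.Helper42.QG

open Pool.Agent.Helper69.QG

private lemma gg (s : Fin 4) : gen s * gen s = 1 := cs.simple_mul_simple_self s

private lemma ginv (s : Fin 4) : (gen s)⁻¹ = gen s := inv_eq_of_mul_eq_one_right (gg s)

private lemma comm_of (s t : Fin 4) (h : cm s t = 2) : gen s * gen t = gen t * gen s := by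
  have h1 : (gen s * gen t) ^ 2 = 1 := by
    have := cs.simple_mul_simple_pow s t
    rw [h] at this
    exact this
  rw [pow_two] at h1
  have h2 := inv_eq_of_mul_eq_one_right h1
  rw [mul_inv_rev, ginv, ginv] at h2
  exact h2.symm

private lemma c02 : gen 0 * gen 2 = gen 2 * gen 0 := comm_of 0 2 rfl

private lemma c03 : gen 0 * gen 3 = gen 3 * gen 0 := comm_of 0 3 rfl

private lemma act_mul (v w : W) (z : DD) : act (v * w) z = act v (act w z) := by
  rw [map_mul, Equiv.Perm.mul_apply]

private lemma aa (z : DD) : act (gen 0) (act (gen 0) z) = z := by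
  rw [← act_mul, gg, map_one, Equiv.Perm.one_apply]

private instance evNormal : Ev.Normal := by
  unfold Ev
  infer_instance

/-- Conjugation by the first generator. -/
private def κ : Ev ≃* Ev := MulAut.conjNormal (gen 0)

private lemma κ_coe (w : Ev) : ((κ w : Ev) : W) = gen 0 * (w : W) * gen 0 := by
  have : ((κ w : Ev) : W) = gen 0 * (w : W) * (gen 0)⁻¹ := MulAut.conjNormal_apply (gen 0) w
  rw [this, ginv]

private lemma shf_inj_data : ∃ P : Equiv.Perm ℂ, ∀ u, P u = shf u :=
  ⟨{ toFun := shf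
     invFun := fun u => ⟨u.re - u.im + 1, u.im⟩
     left_inv := fun u => by
       unfold shf
       apply Complex.ext
       · simp
         ring
       · simp
     right_inv := fun u => by
       unfold shf
       apply Complex.ext
       · simp
         ring
       · simp }, fun _ => rfl⟩

private lemma flat_mul (v w : W) (z : ℂ) : flat (v * w) z = flat v (flat w z) := by
  rw [map_mul, Equiv.Perm.mul_apply]

private lemma f10 (u : ℂ) : flat (gen 1 * gen 0) u = u + 2 := by
  rw [flat_mul, flat_gen, flat_gen]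
  simp [fr]
  ring

private lemma f01 (u : ℂ) : flat (gen 0 * gen 1) u = u - 2 := by
  rw [flat_mul, flat_gen, flat_gen]
  simp [fr, conj_two]

private lemma f20 (u : ℂ) : flat (gen 2 * gen 0) u = -u := by
  rw [flat_mul, flat_gen, flat_gen]
  simp [fr]

private lemma f30 (u : ℂ) : flat (gen 3 * gen 0) u = -u + 2 * I := by
  rw [flat_mul, flat_gen, flat_gen]
  simp [fr]

/-- SHH. -/
theorem cSHH (pch : St_PCH) (evl : St_EVL) (cvr : St_CVR) (cta : St_CTA) (she : St_SHE) :
    St_SHH := by
  obtain ⟨φ, F, hFc, hφ, hFe, hF1, hF2, hF3, hF4⟩ := she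
  obtain ⟨m, _, uniq, evor, _⟩ := evl
  obtain ⟨φ1, φ2, φ3⟩ := hφ (m 1) (m 2) (m 3)
  obtain ⟨p1, p2, _, _, _⟩ := pch
  -- the inverse map
  set F' : DD → DD := fun z => act (gen 0) (F (act (gen 0) z)) with hF'
  -- reduction to the double tile
  have red : ∀ P : DD → Prop, (∀ (w : Ev) (z : DD), P z → P (act (w : W) z)) →
      (∀ u ∈ Sq, P (pt u)) → (∀ u ∈ Sq, P (act (gen 0) (pt u))) → ∀ z, P z := by
    intro P hP h0 h1 z
    obtain ⟨w, hw⟩ := cvr z
    obtain ⟨hSq, hpt⟩ := p1 _ hw
    have hz : z = act w⁻¹ (pt (psi (act w z))) := by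
      rw [hpt, ← act_mul, inv_mul_cancel, map_one, Equiv.Perm.one_apply]
    rcases evor w⁻¹ with hE | hE
    · rw [hz]
      exact hP ⟨w⁻¹, hE⟩ _ (h0 _ hSq)
    · have hz' : z = act (w⁻¹ * gen 0) (act (gen 0) (pt (psi (act w z)))) := by
        rw [act_mul, aa]
        exact hz
      rw [hz']
      exact hP ⟨w⁻¹ * gen 0, hE⟩ _ (h1 _ hSq)
  -- the automorphism
  have hκφ : ∀ w : Ev, κ (φ (κ (φ w))) = w := by
    have e := uniq Ev (((κ.toMonoidHom.comp φ.toMonoidHom).comp κ.toMonoidHom).comp φ.toMonoidHom)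
      (MonoidHom.id Ev) (by
        intro s h
        show κ (φ (κ (φ ⟨gen s * gen 0, h⟩))) = ⟨gen s * gen 0, h⟩
        fin_cases s
        · have h1 : (⟨gen 0 * gen 0, h⟩ : Ev) = 1 := Subtype.ext (gg 0)
          show κ (φ (κ (φ ⟨gen 0 * gen 0, h⟩))) = ⟨gen 0 * gen 0, h⟩
          rw [h1, map_one, map_one, map_one, map_one]
        · show κ (φ (κ (φ ⟨gen 1 * gen 0, h⟩))) = ⟨gen 1 * gen 0, h⟩
          rw [φ1]
          have h1 : κ ⟨gen 1 * gen 0, m 1⟩ = (⟨gen 1 * gen 0, m 1⟩ : Ev)⁻¹ := by
            apply Subtype.ext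
            rw [κ_coe]
            show gen 0 * (gen 1 * gen 0) * gen 0 = (gen 1 * gen 0)⁻¹
            rw [mul_inv_rev, ginv, ginv]
            simp only [mul_assoc, gg, mul_one]
          rw [h1, map_inv, φ1, map_inv, h1, inv_inv]
        · show κ (φ (κ (φ ⟨gen 2 * gen 0, h⟩))) = ⟨gen 2 * gen 0, h⟩
          rw [φ2]
          have h1 : κ ((⟨gen 1 * gen 0, m 1⟩ : Ev)⁻¹ * ⟨gen 2 * gen 0, m 2⟩) =
              (⟨gen 1 * gen 0, m 1⟩ : Ev) * ⟨gen 2 * gen 0, m 2⟩ := by
            apply Subtype.ext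
            rw [κ_coe]
            show gen 0 * ((gen 1 * gen 0)⁻¹ * (gen 2 * gen 0)) * gen 0 =
              gen 1 * gen 0 * (gen 2 * gen 0)
            rw [mul_inv_rev, ginv, ginv]
            have e1 : gen 0 * (gen 0 * gen 1 * (gen 2 * gen 0)) * gen 0 =
                (gen 0 * gen 0) * gen 1 * gen 2 * (gen 0 * gen 0) := by
              simp only [mul_assoc]
            have e2 : gen 1 * gen 0 * (gen 2 * gen 0) = gen 1 * gen 2 * (gen 0 * gen 0) := by
              rw [← c02]
              have : gen 1 * gen 0 * (gen 0 * gen 2) = gen 1 * (gen 0 * gen 0) * gen 2 := by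
                simp only [mul_assoc]
              rw [this, gg]
              simp
            rw [e1, e2, gg, one_mul]
          rw [h1, map_mul, φ1, φ2, mul_inv_cancel_left]
          apply Subtype.ext
          rw [κ_coe]
          show gen 0 * (gen 2 * gen 0) * gen 0 = gen 2 * gen 0
          rw [mul_assoc, mul_assoc, gg, mul_one, c02]
        · show κ (φ (κ (φ ⟨gen 3 * gen 0, h⟩))) = ⟨gen 3 * gen 0, h⟩
          have h1 : κ ⟨gen 3 * gen 0, m 3⟩ = (⟨gen 3 * gen 0, m 3⟩ : Ev) := by
            apply Subtype.ext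
            rw [κ_coe]
            show gen 0 * (gen 3 * gen 0) * gen 0 = gen 3 * gen 0
            rw [mul_assoc, mul_assoc, gg, mul_one, c03]
          rw [φ3, h1, φ3, h1])
    intro w
    exact DFunLike.congr_fun e w
  have hF'e : ∀ (w : Ev) (z : DD), F' (act (w : W) z) = act ((κ (φ (κ w)) : Ev) : W) (F' z) := by
    intro w z
    show act (gen 0) (F (act (gen 0) (act (w : W) z))) = _
    have e1 : act (gen 0) (act (w : W) z) = act ((κ w : Ev) : W) (act (gen 0) z) := by
      rw [κ_coe, ← act_mul, ← act_mul]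
      congr 1
      rw [mul_assoc, mul_assoc, gg, mul_one]
    rw [e1, hFe, κ_coe, ← act_mul]
    show _ = act _ (act (gen 0) (F (act (gen 0) z)))
    rw [← act_mul]
    have e2 : gen 0 * ((φ (κ w) : Ev) : W) * gen 0 * gen 0 = gen 0 * ((φ (κ w) : Ev) : W) := by
      rw [mul_assoc, gg, mul_one]
    rw [e2]
  -- `F' ∘ F = id`
  have hleft : ∀ z, F' (F z) = z := by
    apply red (fun z => F' (F z) = z)
    · intro w z hz
      show F' (F (act (w : W) z)) = act (w : W) z
      have hz' : F' (F z) = z := hz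
      rw [hFe, hF'e, hκφ, hz']
    · intro u hu
      obtain ⟨hX0, hX1, hY0, hY1⟩ := hu
      show F' (F (pt u)) = pt u
      rcases le_total 1 (u.re + u.im) with h | h
      · rw [hF1 u ⟨hX0, hX1, hY0, hY1⟩ h]
        show act (gen 0) (F (act (gen 0) (pt ⟨u.re + u.im - 1, u.im⟩))) = pt u
        have hv : (⟨u.re + u.im - 1, u.im⟩ : ℂ) ∈ Sq :=
          ⟨by show 0 ≤ u.re + u.im - 1; linarith, by show u.re + u.im - 1 ≤ 1; linarith, hY0, hY1⟩
        rw [hF3 _ hv (by show u.re + u.im - 1 ≤ u.im; linarith), aa]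
        congr 1
        apply Complex.ext
        · show 1 + (u.re + u.im - 1) - u.im = u.re
          ring
        · rfl
      · rw [hF2 u ⟨hX0, hX1, hY0, hY1⟩ h]
        show act (gen 0) (F (act (gen 0) (act (gen 0) (pt ⟨1 - u.re - u.im, u.im⟩)))) = pt u
        have hv : (⟨1 - u.re - u.im, u.im⟩ : ℂ) ∈ Sq :=
          ⟨by show 0 ≤ 1 - u.re - u.im; linarith, by show 1 - u.re - u.im ≤ 1; linarith, hY0, hY1⟩
        rw [aa, hF2 _ hv (by show 1 - u.re - u.im + u.im ≤ 1; linarith), aa]
        congr 1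
        apply Complex.ext
        · show 1 - (1 - u.re - u.im) - u.im = u.re
          ring
        · rfl
    · intro u hu
      obtain ⟨hX0, hX1, hY0, hY1⟩ := hu
      show F' (F (act (gen 0) (pt u))) = act (gen 0) (pt u)
      rcases le_total u.re u.im with h | h
      · rw [hF3 u ⟨hX0, hX1, hY0, hY1⟩ h]
        show act (gen 0) (F (act (gen 0) (act (gen 0) (pt ⟨1 + u.re - u.im, u.im⟩)))) = _
        have hv : (⟨1 + u.re - u.im, u.im⟩ : ℂ) ∈ Sq :=
          ⟨by show 0 ≤ 1 + u.re - u.im; linarith, by show 1 + u.re - u.im ≤ 1; linarith, hY0, hY1⟩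
        rw [aa, hF1 _ hv (by show 1 ≤ 1 + u.re - u.im + u.im; linarith)]
        congr 2
        apply Complex.ext
        · show 1 + u.re - u.im + u.im - 1 = u.re
          ring
        · rfl
      · rw [hF4 u ⟨hX0, hX1, hY0, hY1⟩ h]
        show act (gen 0) (F (act (gen 0) (act (gen 0 * gen 1) (pt ⟨1 - u.re + u.im, u.im⟩)))) = _
        have hv : (⟨1 - u.re + u.im, u.im⟩ : ℂ) ∈ Sq :=
          ⟨by show 0 ≤ 1 - u.re + u.im; linarith, by show 1 - u.re + u.im ≤ 1; linarith, hY0, hY1⟩
        have e1 : act (gen 0) (act (gen 0 * gen 1) (pt ⟨1 - u.re + u.im, u.im⟩)) =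
            act (((⟨gen 1 * gen 0, m 1⟩ : Ev)) : W)
              (act (gen 0) (pt ⟨1 - u.re + u.im, u.im⟩)) := by
          show act (gen 0) (act (gen 0 * gen 1) (pt ⟨1 - u.re + u.im, u.im⟩)) =
            act (gen 1 * gen 0) (act (gen 0) (pt ⟨1 - u.re + u.im, u.im⟩))
          rw [act_mul, aa, act_mul, aa]
        rw [e1, hFe, φ1, hF4 _ hv (by show u.im ≤ 1 - u.re + u.im; linarith)]
        show act (gen 0) (act (gen 1 * gen 0) (act (gen 0 * gen 1)
          (pt ⟨1 - (1 - u.re + u.im) + u.im, u.im⟩))) = act (gen 0) (pt u)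
        have e2 : (⟨1 - (1 - u.re + u.im) + u.im, u.im⟩ : ℂ) = u := by
          apply Complex.ext
          · show 1 - (1 - u.re + u.im) + u.im = u.re
            ring
          · rfl
        rw [e2, ← act_mul (gen 1 * gen 0)]
        have e3 : gen 1 * gen 0 * (gen 0 * gen 1) = 1 := by
          have : gen 1 * gen 0 * (gen 0 * gen 1) = gen 1 * (gen 0 * gen 0) * gen 1 := by
            simp only [mul_assoc]
          rw [this, gg, mul_one, gg]
        rw [e3, map_one, Equiv.Perm.one_apply]
  have hright : ∀ z, F (F' z) = z := by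
    intro z
    have h1 := hleft (act (gen 0) z)
    have h2 : act (gen 0) (F (act (gen 0) (F (act (gen 0) z)))) = act (gen 0) z := h1
    exact (act (gen 0)).injective h2
  have hF'c : Continuous F' := (cta.1 (gen 0)).comp (hFc.comp (cta.1 (gen 0)))
  refine ⟨{ toFun := F, invFun := F', left_inv := hleft, right_inv := hright,
            continuous_toFun := hFc, continuous_invFun := hF'c }, φ, fun w z => hFe w z, ?_⟩
  intro Psi hPsi
  obtain ⟨P, hP⟩ := shf_inj_data
  -- the shear is equivariant on the plane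
  have hflat : ∀ (w : Ev) (u : ℂ), flat ((φ w : Ev) : W) (shf u) = shf (flat (w : W) u) := by
    have e := uniq (Equiv.Perm ℂ) ((flat.comp Ev.subtype).comp φ.toMonoidHom)
      ((MulAut.conj P).toMonoidHom.comp (flat.comp Ev.subtype)) (by
        intro s h
        show flat ((φ ⟨gen s * gen 0, h⟩ : Ev) : W) = P * flat (gen s * gen 0) * P⁻¹
        rw [eq_mul_inv_iff_mul_eq]
        fin_cases s
        · have h1 : (⟨gen 0 * gen 0, h⟩ : Ev) = 1 := Subtype.ext (gg 0)
          show flat ((φ ⟨gen 0 * gen 0, h⟩ : Ev) : W) * P = P * flat (gen 0 * gen 0)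
          rw [h1, map_one, gg, map_one, mul_one]
          show flat 1 * P = P
          rw [map_one, one_mul]
        · show flat ((φ ⟨gen 1 * gen 0, h⟩ : Ev) : W) * P = P * flat (gen 1 * gen 0)
          rw [φ1]
          ext1 u
          show flat (gen 1 * gen 0) (P u) = P (flat (gen 1 * gen 0) u)
          rw [hP, hP, f10, f10]
          unfold shf
          apply Complex.ext
          · simp
            ring
          · simp
        · show flat ((φ ⟨gen 2 * gen 0, h⟩ : Ev) : W) * P = P * flat (gen 2 * gen 0)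
          rw [φ2]
          ext1 u
          show flat ((gen 1 * gen 0)⁻¹ * (gen 2 * gen 0)) (P u) = P (flat (gen 2 * gen 0) u)
          rw [mul_inv_rev, ginv, ginv, flat_mul, hP, hP, f20, f01, f20]
          unfold shf
          apply Complex.ext
          · simp
            ring
          · simp
        · show flat ((φ ⟨gen 3 * gen 0, h⟩ : Ev) : W) * P = P * flat (gen 3 * gen 0)
          rw [φ3]
          ext1 u
          show flat (gen 3 * gen 0) (P u) = P (flat (gen 3 * gen 0) u)
          rw [hP, hP, f30, f30]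
          unfold shf
          apply Complex.ext
          · simp
            ring
          · simp)
    intro w u
    have h1 := DFunLike.congr_fun e w
    have h2 : flat ((φ w : Ev) : W) = P * flat (w : W) * P⁻¹ := h1
    rw [h2]
    show P (flat (w : W) (P.symm (shf u))) = shf (flat (w : W) u)
    rw [← hP u, Equiv.symm_apply_apply, hP]
  have hpt : ∀ u ∈ Sq, Psi (pt u) = u := by
    intro u hu
    rw [hPsi.tile _ (p2 u hu).1, (p2 u hu).2.2]
  apply red (fun z => Psi (F z) = shf (Psi z))
  · intro w z hz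
    show Psi (F (act (w : W) z)) = shf (Psi (act (w : W) z))
    have hz' : Psi (F z) = shf (Psi z) := hz
    rw [hFe, hPsi.eqv, hz', hPsi.eqv, hflat]
  · intro u hu
    obtain ⟨hX0, hX1, hY0, hY1⟩ := hu
    show Psi (F (pt u)) = shf (Psi (pt u))
    rw [hpt u ⟨hX0, hX1, hY0, hY1⟩]
    rcases le_total 1 (u.re + u.im) with h | h
    · rw [hF1 u ⟨hX0, hX1, hY0, hY1⟩ h]
      have hv : (⟨u.re + u.im - 1, u.im⟩ : ℂ) ∈ Sq :=
        ⟨by show 0 ≤ u.re + u.im - 1; linarith, by show u.re + u.im - 1 ≤ 1; linarith, hY0, hY1⟩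
      rw [hpt _ hv]
      rfl
    · rw [hF2 u ⟨hX0, hX1, hY0, hY1⟩ h]
      have hv : (⟨1 - u.re - u.im, u.im⟩ : ℂ) ∈ Sq :=
        ⟨by show 0 ≤ 1 - u.re - u.im; linarith, by show 1 - u.re - u.im ≤ 1; linarith, hY0, hY1⟩
      rw [hPsi.eqv, hpt _ hv, flat_gen]
      unfold shf
      apply Complex.ext
      · simp [fr]
        ring
      · simp [fr]
  · intro u hu
    obtain ⟨hX0, hX1, hY0, hY1⟩ := hu
    show Psi (F (act (gen 0) (pt u))) = shf (Psi (act (gen 0) (pt u)))
    rw [hPsi.eqv (gen 0) (pt u), hpt u ⟨hX0, hX1, hY0, hY1⟩, flat_gen]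
    rcases le_total u.re u.im with h | h
    · rw [hF3 u ⟨hX0, hX1, hY0, hY1⟩ h]
      have hv : (⟨1 + u.re - u.im, u.im⟩ : ℂ) ∈ Sq :=
        ⟨by show 0 ≤ 1 + u.re - u.im; linarith, by show 1 + u.re - u.im ≤ 1; linarith, hY0, hY1⟩
      rw [hPsi.eqv, hpt _ hv, flat_gen]
      unfold shf
      apply Complex.ext
      · simp [fr]
        ring
      · simp [fr]
    · rw [hF4 u ⟨hX0, hX1, hY0, hY1⟩ h]
      have hv : (⟨1 - u.re + u.im, u.im⟩ : ℂ) ∈ Sq :=
        ⟨by show 0 ≤ 1 - u.re + u.im; linarith, by show 1 - u.re + u.im ≤ 1; linarith, hY0, hY1⟩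
      rw [hPsi.eqv, hpt _ hv, f01]
      unfold shf
      apply Complex.ext
      · simp [fr]
        ring
      · simp [fr]

end Pool.Agent.Helper42.QG
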